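import Mathlib

set_option autoImplicit false

open Finset

namespace Pool.Agent.Results.MP_befaea_co.OddSquares

/-- `[0,1]^n` contains a congruent copy of `[0,s]^m`: the image of `[0,s]^m` under an isometric
affine embedding of `ℝ^m` into `ℝ^n` lies in `[0,1]^n`. -/
def Inscribed (m n : ℕ) (s : ℝ) : Prop :=
  ∃ φ : EuclideanSpace ℝ (Fin m) →ᵃⁱ[ℝ] EuclideanSpace ℝ (Fin n),
    ∀ x : EuclideanSpace ℝ (Fin m), (∀ i, x i ∈ Set.Icc (0 : ℝ) s) →
      ∀ j, φ x j ∈ Set.Icc (0 : ℝ) 1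

/-- parity lemma -/
theorem parity {N : ℕ} (hN : Odd N) (x d : Fin N → ℝ) (hx : ∀ j, |x j| ≤ 1)
    (hl : ∀ j, 1 - |x j| ≤ 4 / 3 * d j) (hsum : ∑ j, x j = 0) (hT : ∑ j, d j < 3 / 4) : False := by
  classical
  set e : Fin N → ℤ := fun j => if 0 ≤ x j then 1 else -1 with he
  have h1 : ∀ j, ((e j : ℤ) : ℝ) * |x j| = x j := by
    intro j
    simp only [he]
    split_ifs with h
    · rw [abs_of_nonneg h]; simp
    · rw [abs_of_neg (not_le.mp h)]; simp
  have h2 : ((∑ j, e j : ℤ) : ℝ) = ∑ j, (e j : ℝ) * (1 - |x j|) := by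
    push_cast
    have : ∑ j, (e j : ℝ) * (1 - |x j|) = ∑ j, (e j : ℝ) - ∑ j, x j := by
      rw [← Finset.sum_sub_distrib]
      refine Finset.sum_congr rfl fun j _ => ?_
      rw [mul_sub, h1]; ring
    rw [this, hsum, sub_zero]
  have h3 : |((∑ j, e j : ℤ) : ℝ)| < 1 := by
    rw [h2]
    calc |∑ j, (e j : ℝ) * (1 - |x j|)| ≤ ∑ j, |(e j : ℝ) * (1 - |x j|)| :=
          Finset.abs_sum_le_sum_abs _ _
      _ ≤ ∑ j, 4 / 3 * d j := by
          refine Finset.sum_le_sum fun j _ => ?_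
          have ha : |(e j : ℝ)| = 1 := by
            simp only [he]
            split_ifs <;> simp
          rw [abs_mul, ha, one_mul, abs_of_nonneg (by linarith [hx j])]
          exact hl j
      _ = 4 / 3 * ∑ j, d j := by rw [Finset.mul_sum]
      _ < 1 := by linarith
  have h4 : (∑ j, e j) = 0 := by
    have : |(∑ j, e j : ℤ)| < 1 := by exact_mod_cast h3
    exact Int.abs_lt_one_iff.mp this
  have h5 : Odd (∑ j, e j) := by
    have h6 : ∀ j, e j = 1 + 2 * (if 0 ≤ x j then 0 else -1) := by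
      intro j
      simp only [he]
      split_ifs <;> norm_num
    have h7 : ∑ j, e j = (N : ℤ) + 2 * ∑ j, (if 0 ≤ x j then (0 : ℤ) else -1) := by
      rw [Finset.sum_congr rfl fun j _ => h6 j, Finset.sum_add_distrib, ← Finset.mul_sum]
      simp
    rw [h7]
    have h8 : Odd (N : ℤ) := by exact_mod_cast hN
    exact h8.add_even (even_two_mul _)
  rw [h4] at h5
  exact absurd h5 (by decide)

theorem core {N : ℕ} (hN : Odd N) (p q : Fin N → ℝ) (S : ℝ)
    (h1 : ∀ j, |p j + q j| ≤ 1) (h2 : ∀ j, |p j - q j| ≤ 1)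
    (hp : ∑ j, p j ^ 2 = S) (hq : ∑ j, q j ^ 2 = S) (hpq : ∑ j, p j * q j = 0) :
    2 * S ≤ N - 3 / 4 := by
  classical
  by_contra hcon
  rw [not_le] at hcon
  set d : Fin N → ℝ := fun j => 1 - (p j ^ 2 + q j ^ 2) with hd
  set y : Fin N → ℝ := fun j => 2 * (p j * q j) with hy
  have hT : ∑ j, d j < 3 / 4 := by
    simp only [hd]
    rw [Finset.sum_sub_distrib, Finset.sum_add_distrib, hp, hq]
    simp
    linarith
  have hy0 : ∑ j, y j = 0 := by
    simp only [hy]
    rw [← Finset.mul_sum, hpq, mul_zero]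
  have hs1 : ∀ j, (p j + q j) ^ 2 ≤ 1 := fun j => (sq_le_one_iff_abs_le_one _).mpr (h1 j)
  have hs2 : ∀ j, (p j - q j) ^ 2 ≤ 1 := fun j => (sq_le_one_iff_abs_le_one _).mpr (h2 j)
  have hyd : ∀ j, |y j| ≤ d j := by
    intro j
    rw [abs_le]
    simp only [hy, hd]
    constructor
    · nlinarith [hs2 j]
    · nlinarith [hs1 j]
  have hd0 : ∀ j, 0 ≤ d j := fun j => (abs_nonneg _).trans (hyd j)
  have hb : ∀ j, d j + |y j| < 3 / 4 := by
    intro j
    have e1 : ∑ k, d k = d j + ∑ k ∈ Finset.univ.erase j, d k :=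
      (Finset.add_sum_erase _ _ (Finset.mem_univ j)).symm
    have e2 : ∑ k, y k = y j + ∑ k ∈ Finset.univ.erase j, y k :=
      (Finset.add_sum_erase _ _ (Finset.mem_univ j)).symm
    have e3 : |y j| ≤ ∑ k ∈ Finset.univ.erase j, d k := by
      have : y j = - ∑ k ∈ Finset.univ.erase j, y k := by linarith
      rw [this, abs_neg]
      exact (Finset.abs_sum_le_sum_abs _ _).trans (Finset.sum_le_sum fun k _ => hyd k)
    linarith
  set x : Fin N → ℝ := fun j => p j ^ 2 - q j ^ 2 with hx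
  have hx0 : ∑ j, x j = 0 := by
    simp only [hx]
    rw [Finset.sum_sub_distrib, hp, hq, sub_self]
  have hxsq : ∀ j, x j ^ 2 = (1 - d j) ^ 2 - |y j| ^ 2 := by
    intro j
    rw [sq_abs]
    simp only [hx, hd, hy]
    ring
  have hd1 : ∀ j, d j ≤ 1 := by
    intro j
    simp only [hd]
    nlinarith [sq_nonneg (p j), sq_nonneg (q j)]
  have hx1 : ∀ j, |x j| ≤ 1 := by
    intro j
    rw [← sq_le_one_iff_abs_le_one, hxsq]
    nlinarith [hd0 j, hd1 j, sq_nonneg (|y j|)]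
  refine parity hN x d hx1 ?_ hx0 hT
  intro j
  by_cases hc : 1 - 4 / 3 * d j ≤ 0
  · linarith [abs_nonneg (x j)]
  · rw [not_le] at hc
    have : 1 - 4 / 3 * d j ≤ |x j| := by
      apply le_of_sq_le_sq _ (abs_nonneg _) |> fun h => h
      rw [sq_abs, hxsq]
      have a1 := abs_nonneg (y j)
      have a2 := hyd j
      have a3 := (hb j).le
      have a4 := hd0 j
      nlinarith [mul_nonneg (by linarith : (0:ℝ) ≤ d j + |y j|) (by linarith : (0:ℝ) ≤ 3 / 4 - (d j + |y j|)),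
        mul_nonneg (by linarith : (0:ℝ) ≤ d j - |y j|) (by linarith : (0:ℝ) ≤ 3 / 4 - (d j - |y j|)),
        mul_nonneg (by linarith : (0:ℝ) ≤ d j - |y j|) (by linarith : (0:ℝ) ≤ d j + |y j|)]
    linarith

theorem upper {N : ℕ} (hN : Odd N) (s : ℝ) (hs : 0 ≤ s) (h : Inscribed 2 N s) :
    2 * s ^ 2 ≤ N - 3 / 4 := by
  obtain ⟨φ, hφ⟩ := h
  set e1 : EuclideanSpace ℝ (Fin 2) := !₂[s, 0] with he1
  set e2 : EuclideanSpace ℝ (Fin 2) := !₂[0, s] with he2
  set a := φ 0 with ha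
  set P := φ.linearIsometry e1 with hP
  set Q := φ.linearIsometry e2 with hQ
  have hmap : ∀ v, φ v = φ.linearIsometry v + a := by
    intro v
    have := φ.map_vadd 0 v
    simpa using this
  have n1 : ‖P‖ = s := by
    rw [hP, LinearIsometry.norm_map, EuclideanSpace.norm_eq]
    simp [he1, Real.sqrt_sq hs]
  have n2 : ‖Q‖ = s := by
    rw [hQ, LinearIsometry.norm_map, EuclideanSpace.norm_eq]
    simp [he2, Real.sqrt_sq hs]
  have n3 : inner ℝ P Q = (0 : ℝ) := by
    rw [hP, hQ, LinearIsometry.inner_map_map]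
    simp [he1, he2, EuclideanSpace.inner_eq_star_dotProduct]
  have c0 : ∀ j, a j ∈ Set.Icc (0 : ℝ) 1 := by
    intro j
    exact hφ 0 (by intro i; simp [hs]) j
  have c1 : ∀ j, P j + a j ∈ Set.Icc (0 : ℝ) 1 := by
    intro j
    have := hφ e1 (by intro i; fin_cases i <;> simp [he1, hs]) j
    rw [hmap] at this
    simpa using this
  have c2 : ∀ j, Q j + a j ∈ Set.Icc (0 : ℝ) 1 := by
    intro j
    have := hφ e2 (by intro i; fin_cases i <;> simp [he2, hs]) j
    rw [hmap] at this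
    simpa using this
  have c3 : ∀ j, P j + Q j + a j ∈ Set.Icc (0 : ℝ) 1 := by
    intro j
    have := hφ (e1 + e2) (by intro i; fin_cases i <;> simp [he1, he2, hs]) j
    rw [hmap, map_add] at this
    simpa using this
  refine core hN (fun j => P j) (fun j => Q j) (s ^ 2) ?_ ?_ ?_ ?_ ?_
  · intro j
    rw [abs_le]
    have := c0 j; have := c3 j
    simp only [Set.mem_Icc] at *
    constructor <;> linarith [this.1, this.2, (c0 j).1, (c0 j).2, (c3 j).1, (c3 j).2]
  · intro j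
    rw [abs_le]
    constructor <;> linarith [(c1 j).1, (c1 j).2, (c2 j).1, (c2 j).2]
  · rw [← n1, EuclideanSpace.norm_eq, Real.sq_sqrt (by positivity)]
    simp
  · rw [← n2, EuclideanSpace.norm_eq, Real.sq_sqrt (by positivity)]
    simp
  · rw [← n3, PiLp.inner_apply]
    refine Finset.sum_congr rfl fun j _ => ?_
    simp [mul_comm]

/-- the extremal square: half-coordinates -/
noncomputable def pp : ℕ → ℝ
  | 0 => 3 / 4
  | 1 => 3 / 4
  | 2 => 0
  | (k + 3) => if k % 2 = 0 then 1 else 0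

noncomputable def qq : ℕ → ℝ
  | 0 => 1 / 4
  | 1 => -1 / 4
  | 2 => 1
  | (k + 3) => if k % 2 = 0 then 0 else 1

theorem abs_pq (k : ℕ) : |pp k| + |qq k| ≤ 1 := by
  match k with
  | 0 => simp only [pp, qq]; norm_num [abs_of_pos]
  | 1 => simp only [pp, qq]; rw [abs_of_pos (by norm_num), abs_of_neg (by norm_num)]; norm_num
  | 2 => simp [pp, qq]
  | (k + 3) =>
    simp only [pp, qq]
    split_ifs <;> simp

theorem sum_pp (n : ℕ) : ∑ k ∈ range (2 * (n + 1) + 1), pp k ^ 2 = (n : ℝ) + 1 + 1 / 8 := by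
  induction n with
  | zero => simp [Finset.sum_range_succ, pp]; norm_num
  | succ n ih =>
    rw [show 2 * (n + 1 + 1) + 1 = 2 * (n + 1) + 1 + 1 + 1 by ring, Finset.sum_range_succ,
      Finset.sum_range_succ, ih]
    rw [show 2 * (n + 1) + 1 + 1 = (2 * n + 1) + 3 by ring, show 2 * (n + 1) + 1 = 2 * n + 3 by ring]
    simp only [pp]
    rw [if_pos (by omega), if_neg (by omega)]
    push_cast; ring

theorem sum_qq (n : ℕ) : ∑ k ∈ range (2 * (n + 1) + 1), qq k ^ 2 = (n : ℝ) + 1 + 1 / 8 := by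
  induction n with
  | zero => simp [Finset.sum_range_succ, qq]; norm_num
  | succ n ih =>
    rw [show 2 * (n + 1 + 1) + 1 = 2 * (n + 1) + 1 + 1 + 1 by ring, Finset.sum_range_succ,
      Finset.sum_range_succ, ih]
    rw [show 2 * (n + 1) + 1 + 1 = (2 * n + 1) + 3 by ring, show 2 * (n + 1) + 1 = 2 * n + 3 by ring]
    simp only [qq]
    rw [if_pos (by omega), if_neg (by omega)]
    push_cast; ring

theorem sum_pq (n : ℕ) : ∑ k ∈ range (2 * (n + 1) + 1), pp k * qq k = 0 := by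
  induction n with
  | zero => simp [Finset.sum_range_succ, pp, qq]; norm_num
  | succ n ih =>
    rw [show 2 * (n + 1 + 1) + 1 = 2 * (n + 1) + 1 + 1 + 1 by ring, Finset.sum_range_succ,
      Finset.sum_range_succ, ih]
    rw [show 2 * (n + 1) + 1 + 1 = (2 * n + 1) + 3 by ring, show 2 * (n + 1) + 1 = 2 * n + 3 by ring]
    simp only [pp, qq]
    have e1 : 2 * n % 2 = 0 := by omega
    have e2 : ¬ ((2 * n + 1) % 2 = 0) := by omega
    rw [if_pos e1, if_pos e1, if_neg e2, if_neg e2]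
    norm_num

theorem lower (n : ℕ) (s : ℝ) (hs0 : 0 < s) (hs : s ^ 2 = (n : ℝ) + 1 + 1 / 8) :
    Inscribed 2 (2 * (n + 1) + 1) s := by
  set N := 2 * (n + 1) + 1 with hN
  set P : EuclideanSpace ℝ (Fin N) := WithLp.toLp 2 (fun j : Fin N => pp j / s) with hP
  set Q : EuclideanSpace ℝ (Fin N) := WithLp.toLp 2 (fun j : Fin N => qq j / s) with hQ
  have hPj : ∀ j, P j = pp j / s := fun j => rfl
  have hQj : ∀ j, Q j = qq j / s := fun j => rfl
  have nP : ∑ j, P j ^ 2 = 1 := by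
    simp only [hPj, div_pow]
    rw [← Finset.sum_div, Fin.sum_univ_eq_sum_range (fun k => pp k ^ 2) N, hN, sum_pp, ← hs]
    field_simp
  have nQ : ∑ j, Q j ^ 2 = 1 := by
    simp only [hQj, div_pow]
    rw [← Finset.sum_div, Fin.sum_univ_eq_sum_range (fun k => qq k ^ 2) N, hN, sum_qq, ← hs]
    field_simp
  have nPQ : ∑ j, P j * Q j = 0 := by
    have : ∀ j : Fin N, P j * Q j = (pp j * qq j) / s ^ 2 := by
      intro j
      rw [hPj, hQj]
      field_simp
    rw [Finset.sum_congr rfl fun j _ => this j, ← Finset.sum_div,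
      Fin.sum_univ_eq_sum_range (fun k => pp k * qq k) N, hN, sum_pq, zero_div]
  let L : EuclideanSpace ℝ (Fin 2) →ₗ[ℝ] EuclideanSpace ℝ (Fin N) :=
    { toFun := fun x => x 0 • P + x 1 • Q
      map_add' := by
        intro x y
        simp only [PiLp.add_apply, add_smul]
        abel
      map_smul' := by
        intro c x
        simp only [PiLp.smul_apply, smul_eq_mul, RingHom.id_apply, smul_add, smul_smul] }
  have hL : ∀ x j, L x j = x 0 * P j + x 1 * Q j := fun x j => rfl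
  have hLn : ∀ x, ‖L x‖ = ‖x‖ := by
    intro x
    rw [EuclideanSpace.norm_eq, EuclideanSpace.norm_eq]
    congr 1
    simp only [Real.norm_eq_abs, sq_abs, hL, Fin.sum_univ_two]
    have : ∀ j : Fin N, (x 0 * P j + x 1 * Q j) ^ 2
        = x 0 ^ 2 * P j ^ 2 + x 1 ^ 2 * Q j ^ 2 + (2 * x 0 * x 1) * (P j * Q j) := by
      intro j; ring
    rw [Finset.sum_congr rfl fun j _ => this j, Finset.sum_add_distrib, Finset.sum_add_distrib,
      ← Finset.mul_sum, ← Finset.mul_sum, ← Finset.mul_sum, nP, nQ, nPQ]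
    ring
  let c : EuclideanSpace ℝ (Fin N) :=
    WithLp.toLp 2 (fun j : Fin N => 1 / 2 - s / 2 * P j - s / 2 * Q j)
  have hc : ∀ j, c j = 1 / 2 - s / 2 * P j - s / 2 * Q j := fun j => rfl
  let Li : EuclideanSpace ℝ (Fin 2) →ₗᵢ[ℝ] EuclideanSpace ℝ (Fin N) := ⟨L, hLn⟩
  refine ⟨(AffineIsometryEquiv.constVAdd ℝ (EuclideanSpace ℝ (Fin N)) c).toAffineIsometry.comp
    Li.toAffineIsometry, ?_⟩
  intro x hx j
  have h0 := hx 0
  have h1 := hx 1
  have hval : ((AffineIsometryEquiv.constVAdd ℝ (EuclideanSpace ℝ (Fin N)) c).toAffineIsometry.comp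
    Li.toAffineIsometry) x j = 1 / 2 + (x 0 - s / 2) * P j + (x 1 - s / 2) * Q j := by
    have : ((AffineIsometryEquiv.constVAdd ℝ (EuclideanSpace ℝ (Fin N)) c).toAffineIsometry.comp
      Li.toAffineIsometry) x = c + L x := rfl
    rw [this, PiLp.add_apply, hc, hL]
    ring
  rw [hval]
  have hb : |(x 0 - s / 2) * P j + (x 1 - s / 2) * Q j| ≤ 1 / 2 := by
    have b0 : |x 0 - s / 2| ≤ s / 2 := by rw [abs_le]; constructor <;> linarith [h0.1, h0.2]
    have b1 : |x 1 - s / 2| ≤ s / 2 := by rw [abs_le]; constructor <;> linarith [h1.1, h1.2]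
    calc |(x 0 - s / 2) * P j + (x 1 - s / 2) * Q j|
        ≤ |(x 0 - s / 2) * P j| + |(x 1 - s / 2) * Q j| := abs_add_le _ _
      _ = |x 0 - s / 2| * |P j| + |x 1 - s / 2| * |Q j| := by rw [abs_mul, abs_mul]
      _ ≤ s / 2 * |P j| + s / 2 * |Q j| := by gcongr
      _ = (|pp j| + |qq j|) / 2 := by
          rw [hPj, hQj, abs_div, abs_div, abs_of_pos hs0]
          field_simp
      _ ≤ 1 / 2 := by linarith [abs_pq (j : ℕ)]
  rw [abs_le] at hb
  constructor <;> linarith [hb.1, hb.2]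

/-- `f(2, 2n+1) = √(n + 1/8)` for every `n ≥ 1`. -/
theorem result : ∀ n : ℕ, 1 ≤ n →
    IsGreatest {s : ℝ | 0 ≤ s ∧ Inscribed 2 (2 * n + 1) s} (Real.sqrt ((n : ℝ) + 1 / 8)) := by
  intro n hn
  obtain ⟨m, rfl⟩ : ∃ m, n = m + 1 := ⟨n - 1, by omega⟩
  constructor
  · refine ⟨Real.sqrt_nonneg _, lower m _ (Real.sqrt_pos.mpr (by positivity)) ?_⟩
    rw [Real.sq_sqrt (by positivity)]
    push_cast
    ring
  · rintro s ⟨hs, h⟩
    have := upper (odd_two_mul_add_one (m + 1)) s hs h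
    apply Real.le_sqrt_of_sq_le
    push_cast at this ⊢
    linarith

end Pool.Agent.Results.MP_befaea_co.OddSquares
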